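import Mathlib
import Pool.Agent.Helper75.Fib.P_main_seq

set_option autoImplicit false

namespace Pool.Agent.Results.MP_175197_nt.ConvergentReciprocals

/-- If `n 0 < n 1 < ...` is a strictly increasing sequence of positive integers such that the sum
of the reciprocals `1 / n k` converges, then the sum of `1 / F (n k)`, `F` the Fibonacci numbers,
is irrational. -/
theorem result (n : ℕ → ℕ) (hn : StrictMono n) (hpos : ∀ k, 0 < n k)
    (hs : Summable fun k : ℕ => (1 : ℝ) / (n k : ℝ)) :
    Irrational (∑' k : ℕ, (1 : ℝ) / (Nat.fib (n k) : ℝ)) :=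
  Pool.Agent.Helper75.Fib.main_seq n hn hpos hs

end Pool.Agent.Results.MP_175197_nt.ConvergentReciprocals
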